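import Mathlib
import Pool.Agent.V5helper2.NR.Stm3
import Pool.Agent.V5helper53.NR.PMS

/-! # Project NR, job QPM: the mass of the diagonal of a product measure -/

set_option autoImplicit false
open Finset Filter Topology MeasureTheory AddCircle
open scoped ComplexConjugate

namespace Pool.Agent.V5helper66.NR

open Pool.Agent.V5helper2.NR Pool.Agent.Helper498.NCR Pool.Agent.V5helper2.CF Pool.Agent.V5helper53.NR

/-- the indicator function of the diagonal -/
noncomputable def dind (z : Ci × Ci) : ℂ :=
  Set.indicator {p : Ci × Ci | p.1 = p.2} (fun _ => (1 : ℂ)) z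

theorem f_unit (s : Ci) : (fourier 1 s : ℂ) * fourier (-1) s = 1 := by
  have h1 : (fourier (-1) s : ℂ) = conj (fourier 1 s : ℂ) := fourier_neg
  rw [h1, Complex.mul_conj, Complex.normSq_eq_norm_sq, f_norm]
  simp

theorem G_tendsto_ind (z : Ci × Ci) : Tendsto (fun H => G H z) atTop (𝓝 (dind z)) := by
  by_cases hz : z.1 = z.2
  · have h := char_avg2 ((fourier 1 z.1 : ℂ) * fourier (-1) z.2) ((fourier (-1) z.1 : ℂ) * fourier 1 z.2)
      (by rw [norm_mul, f_norm, f_norm, one_mul]) (by rw [norm_mul, f_norm, f_norm, one_mul])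
    have e1 : (fourier 1 z.1 : ℂ) * fourier (-1) z.2 = 1 := by rw [← hz]; exact f_unit _
    have e2 : (fourier (-1) z.1 : ℂ) * fourier 1 z.2 = 1 := by rw [← hz, mul_comm]; exact f_unit _
    rw [if_pos ⟨e1, e2⟩] at h
    have e3 : dind z = 1 := by
      unfold dind
      rw [Set.indicator_of_mem]
      exact hz
    rw [e3]
    refine h.congr fun H => ?_
    unfold G
    congr 1
    refine Finset.sum_congr rfl fun a _ => Finset.sum_congr rfl fun b _ => ?_
    rw [f_sub, f_sub]; ring
  · have e3 : dind z = 0 := by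
      unfold dind
      rw [Set.indicator_of_notMem]
      exact hz
    rw [e3]
    exact G_tendsto z hz

theorem t_QPM : S_QPM := by
  intro ρ σ hρ hσ γ δ h1 h2
  have key : ∀ H : ℕ, ((H : ℂ) ^ 2)⁻¹ * ∑ h ∈ range H, ∑ h' ∈ range H,
      Gam γ h h' * conj (Gam δ h h') = ∫ z, G H z ∂(ρ.prod σ) := by
    intro H
    unfold G
    rw [integral_const_mul, integral_finsetSum]
    · congr 1
      refine Finset.sum_congr rfl fun a _ => ?_
      rw [integral_finsetSum]
      · refine Finset.sum_congr rfl fun b _ => ?_
        rw [integral_prod_mul (fun t => (fourier ((a : ℤ) - b) t : ℂ)) (fun t => (fourier ((b : ℤ) - a) t : ℂ)),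
          Gam_eq ρ γ h1, h2 a b]
      · intro b _
        have hc : Continuous fun z : Ci × Ci => (fourier ((a : ℤ) - b) z.1 : ℂ) * fourier ((b : ℤ) - a) z.2 := by
          fun_prop
        refine Integrable.of_bound hc.aestronglyMeasurable 1 (Eventually.of_forall fun z => ?_)
        rw [norm_mul, f_norm, f_norm, one_mul]
    · intro a _
      refine integrable_finsetSum _ fun b _ => ?_
      have hc : Continuous fun z : Ci × Ci => (fourier ((a : ℤ) - b) z.1 : ℂ) * fourier ((b : ℤ) - a) z.2 := by
        fun_prop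
      refine Integrable.of_bound hc.aestronglyMeasurable 1 (Eventually.of_forall fun z => ?_)
      rw [norm_mul, f_norm, f_norm, one_mul]
  have hlim : Tendsto (fun H => ∫ z, G H z ∂(ρ.prod σ)) atTop (𝓝 (∫ z, dind z ∂(ρ.prod σ))) :=
    tendsto_integral_of_dominated_convergence (fun _ => (1 : ℝ))
      (fun H => (G_cont H).aestronglyMeasurable) (integrable_const _)
      (fun H => Eventually.of_forall (G_norm H)) (Eventually.of_forall G_tendsto_ind)
  have hm : MeasurableSet {p : Ci × Ci | p.1 = p.2} := measurableSet_eq_fun measurable_fst measurable_snd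
  have e : ∫ z, dind z ∂(ρ.prod σ) = ((dmass ρ σ : ℝ) : ℂ) := by
    unfold dind dmass
    rw [show (fun z : Ci × Ci => Set.indicator {p : Ci × Ci | p.1 = p.2} (fun _ => (1 : ℂ)) z) =
      Set.indicator {p : Ci × Ci | p.1 = p.2} (fun _ => (1 : ℂ)) from rfl]
    rw [integral_indicator hm, setIntegral_const]
    simp [Measure.real]
  rw [e] at hlim
  exact hlim.congr fun H => (key H).symm

end Pool.Agent.V5helper66.NR
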